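import Pool.Agent.CableTerm.Example

set_option autoImplicit false

namespace Pool.Agent.CableTerm

/-- adjacency masks of `exG` -/
def adjm : ℕ → ℕ
  | 0 => 106
  | 1 => 165
  | 2 => 1546
  | 3 => 1541
  | 4 => 6752
  | 5 => 2963
  | 6 => 6673
  | 7 => 290
  | 8 => 2720
  | 9 => 1404
  | 10 => 4620
  | 11 => 368
  | 12 => 1104
  | _ => 0

/-- number of elements of the set coded by `m` -/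
def pc (m : ℕ) : ℕ :=
  (m.testBit 0).toNat + (m.testBit 1).toNat + (m.testBit 2).toNat + (m.testBit 3).toNat +
  (m.testBit 4).toNat + (m.testBit 5).toNat + (m.testBit 6).toNat + (m.testBit 7).toNat +
  (m.testBit 8).toNat + (m.testBit 9).toNat + (m.testBit 10).toNat + (m.testBit 11).toNat +
  (m.testBit 12).toNat

/-- all fifteen nontrivial sums of four vectors are nonzero -/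
def nz (x y z w : ℕ) : Bool :=
  x != 0 && y != 0 && (x ^^^ y) != 0 && z != 0 && (x ^^^ z) != 0 && (y ^^^ z) != 0 &&
  (x ^^^ y ^^^ z) != 0 && w != 0 && (x ^^^ w) != 0 && (y ^^^ w) != 0 && (x ^^^ y ^^^ w) != 0 &&
  (z ^^^ w) != 0 && (x ^^^ z ^^^ w) != 0 && (y ^^^ z ^^^ w) != 0 && (x ^^^ y ^^^ z ^^^ w) != 0

/-- certificate trees -/
inductive Tr
  | Z
  | L (a b c d : ℕ)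
  | N (l r : Tr)

def leafOK (I O a b c d : ℕ) : Bool :=
  I.testBit a && I.testBit b && I.testBit c && I.testBit d &&
    nz (adjm a &&& O) (adjm b &&& O) (adjm c &&& O) (adjm d &&& O)

def chk : List ℕ → ℕ → ℕ → Tr → Bool
  | _, I, O, .Z => Nat.blt 8 (pc I) || Nat.blt 8 (pc O)
  | _, I, O, .L a b c d => leafOK I O a b c d
  | [], _, _, .N _ _ => false
  | v :: vs, I, O, .N l r => chk vs (I ||| 2 ^ v) O l && chk vs I (O ||| 2 ^ v) r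

/-- the certificate -/
def cert : Tr :=
    (.N (.N (.N (.N (.N (.N (.N (.N (.N .Z (.N .Z (.N .Z (.N .Z (.L 0 1 5 12))))) (.N (.N .Z (.N .Z
    (.N .Z (.L 0 2 5 9)))) (.N (.N .Z (.N .Z (.L 0 5 6 9))) (.N (.N .Z (.L 0 2 5 7)) (.L 0 2 5
    9))))) (.N (.N (.N .Z (.N .Z (.N .Z (.L 0 1 2 5)))) (.N (.N .Z (.N .Z (.L 1 2 5 6))) (.N (.N .Z
    (.L 0 2 5 7)) (.L 0 1 2 5)))) (.N (.N (.N .Z (.N .Z (.N .Z (.L 0 2 4 5)))) (.N (.N .Z (.L 0 2 3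
    5)) (.L 0 2 3 5))) (.N (.N (.N .Z (.L 0 2 5 6)) (.L 0 2 5 6)) (.L 0 2 3 5))))) (.N (.N (.N (.N
    .Z (.N .Z (.N .Z (.L 0 1 9 12)))) (.N (.N .Z (.N .Z (.L 0 1 6 9))) (.N (.N .Z (.L 0 1 7 9)) (.L
    0 1 9 12)))) (.N (.N (.N .Z (.N .Z (.N .Z (.L 0 2 4 9)))) (.N (.N .Z (.L 0 2 7 9)) (.N (.L 0 2 8
    12) (.L 0 2 9 12)))) (.N (.N (.N .Z (.L 0 2 6 7)) (.N (.L 0 2 6 8) (.L 0 2 6 9))) (.L 0 2 9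
    12)))) (.N (.N (.N (.N .Z (.N .Z (.N .Z (.L 0 1 2 4)))) (.N (.N .Z (.L 0 1 2 7)) (.L 0 1 2 12)))
    (.N (.N (.N .Z (.L 0 2 6 7)) (.L 0 1 2 6)) (.L 0 1 2 12))) (.N (.N (.N (.N .Z (.L 0 2 3 7)) (.N
    (.L 0 2 3 8) (.N (.L 0 2 3 11) (.L 0 2 3 4)))) (.L 0 2 3 12)) (.L 0 2 3 12))))) (.N (.N (.N (.N
    (.N .Z (.N .Z (.N .Z (.L 0 1 4 5)))) (.N (.N .Z (.N .Z (.L 1 5 6 10))) (.N (.N .Z (.L 0 5 7 10))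
    (.L 0 1 5 10)))) (.N (.N (.N .Z (.N .Z (.L 0 4 5 9))) (.N (.N .Z (.L 0 2 4 5)) (.L 0 2 4 5)))
    (.N (.N (.N .Z (.L 0 5 6 7)) (.L 0 5 6 9)) (.L 0 2 5 10)))) (.N (.N (.N (.N .Z (.N .Z (.L 1 2 4
    5))) (.N (.N .Z (.L 0 2 4 5)) (.L 0 1 2 4))) (.N (.N (.N .Z (.L 2 5 6 7)) (.L 1 2 5 6)) (.L 0 2
    5 10))) (.N (.N (.N (.N .Z (.L 0 2 4 5)) (.L 0 2 4 5)) (.L 0 2 3 4)) (.L 0 2 5 10)))) (.N (.N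
    (.N (.N (.N .Z (.N .Z (.L 0 1 4 9))) (.N (.N .Z (.L 0 1 4 7)) (.N (.N .Z (.L 0 1 4 8)) (.L 0 1 4
    9)))) (.N (.N (.N .Z (.L 0 6 7 9)) (.L 0 1 6 9)) (.L 0 1 9 10))) (.N (.N (.N (.N .Z (.L 0 2 4
    7)) (.N (.L 0 2 4 8) (.L 0 2 4 9))) (.N (.L 0 2 4 7) (.N (.L 0 2 4 8) (.L 0 2 4 9)))) (.L 0 2 9
    10))) (.N (.N (.N (.N (.N .Z (.L 0 2 4 7)) (.L 0 1 2 4)) (.L 0 1 2 4)) (.N (.L 0 2 6 10) (.L 0 1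
    2 10))) (.L 0 2 3 10))))) (.N (.N (.N (.N (.N (.N .Z (.N .Z (.N .Z (.L 0 1 2 5)))) (.N (.N .Z
    (.N .Z (.L 1 2 5 6))) (.N (.N .Z (.L 0 2 5 7)) (.L 0 1 2 5)))) (.N (.N (.N .Z (.N .Z (.L 0 2 5
    9))) (.N (.N .Z (.L 0 2 3 5)) (.L 0 2 3 5))) (.N (.N (.N .Z (.L 0 2 5 6)) (.L 0 2 5 6)) (.L 0 2
    3 5)))) (.N (.N (.N (.N .Z (.N .Z (.L 1 2 4 5))) (.N (.N .Z (.L 0 2 4 5)) (.L 0 1 2 4))) (.N (.N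
    (.N .Z (.N .Z (.L 2 5 6 12))) (.N (.L 1 2 5 8) (.L 1 2 5 6))) (.N (.N (.L 0 2 5 8) (.L 0 2 5 7))
    (.L 0 1 2 5)))) (.N (.N (.N (.N .Z (.L 0 2 4 5)) (.L 0 2 4 5)) (.L 0 2 3 4)) (.N (.N (.N (.L 0 2
    5 8) (.L 0 2 5 6)) (.L 0 2 5 6)) (.L 0 2 3 5))))) (.N (.N (.N (.N (.N .Z (.N .Z (.L 0 1 2 9)))
    (.N (.N .Z (.L 0 1 2 7)) (.L 0 1 2 12))) (.N (.N (.N .Z (.L 0 2 6 7)) (.L 0 1 2 6)) (.L 0 1 2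
    9))) (.N (.N (.N (.N .Z (.L 0 2 3 7)) (.N (.L 0 2 3 8) (.L 0 2 3 9))) (.L 0 2 3 12)) (.L 0 2 3
    9))) (.N (.N (.N (.N (.N .Z (.L 0 2 4 7)) (.L 0 1 2 4)) (.L 0 1 2 4)) (.N (.N (.N (.L 0 2 6 8)
    (.L 0 2 6 7)) (.L 0 1 2 6)) (.L 0 1 2 12))) (.L 0 2 3 12)))) (.N (.N (.N (.N (.N (.N .Z (.N .Z
    (.L 1 2 4 5))) (.N (.N .Z (.L 0 2 4 5)) (.L 0 1 2 4))) (.N (.N (.N .Z (.L 2 5 6 7)) (.L 1 2 5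
    6)) (.N (.N (.N .Z (.L 0 2 5 8)) (.L 0 2 5 7)) (.L 0 1 2 5)))) (.N (.N (.N (.N .Z (.L 0 2 4 5))
    (.L 0 2 4 5)) (.L 0 2 3 4)) (.N (.L 0 2 5 6) (.L 0 2 3 5)))) (.N (.N (.N (.N (.N .Z (.L 2 4 5
    7)) (.L 1 2 4 5)) (.L 0 2 4 5)) (.N (.N (.N (.L 2 5 6 8) (.L 2 5 6 7)) (.L 1 2 5 6)) (.N (.N (.L
    0 2 5 8) (.L 0 2 5 7)) (.L 0 1 2 5)))) (.N (.L 0 2 4 5) (.N (.L 0 2 5 6) (.L 0 2 3 5))))) (.N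
    (.N (.N (.N (.N (.N .Z (.L 0 2 4 7)) (.L 0 1 2 4)) (.L 0 1 2 4)) (.N (.L 0 2 6 9) (.L 0 1 2 9)))
    (.N (.L 0 2 3 4) (.L 0 2 3 9))) (.N (.N (.N (.N (.N (.L 0 2 4 8) (.L 0 2 4 7)) (.L 0 1 2 4)) (.L
    0 1 2 4)) (.N (.N (.N (.L 0 2 6 8) (.L 0 2 6 7)) (.L 0 1 2 6)) (.N (.N (.L 0 1 2 8) (.L 0 1 2
    7)) (.N (.L 0 1 2 8) (.N (.L 0 1 2 11) .Z))))) (.N (.L 0 2 3 4) (.N (.L 0 2 3 6) (.N (.L 0 2 3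
    7) (.N (.L 0 2 3 8) .Z))))))))) (.N (.N (.N (.N (.N (.N (.N .Z (.N .Z (.N .Z (.L 1 3 4 5)))) (.N
    (.N .Z (.N .Z (.L 1 3 5 6))) (.N (.N .Z (.L 1 5 7 9)) (.L 1 3 5 9)))) (.N (.N (.N .Z (.N .Z (.L
    2 3 5 9))) (.N (.N .Z (.L 2 3 4 5)) (.L 2 3 4 5))) (.N (.N (.N .Z (.L 2 3 5 6)) (.L 2 3 5 6))
    (.L 2 3 5 9)))) (.N (.N (.N (.N .Z (.N .Z (.L 1 2 3 5))) (.N (.N .Z (.L 1 2 4 5)) (.L 1 2 3 4)))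
    (.N (.N (.N .Z (.L 1 2 5 6)) (.L 1 2 3 5)) (.L 1 2 5 12))) (.N (.N (.N (.N .Z (.L 2 3 4 5)) (.L
    2 3 4 5)) (.L 2 3 4 5)) (.L 2 3 5 10)))) (.N (.N (.N (.N (.N .Z (.N .Z (.L 1 3 4 9))) (.N (.N .Z
    (.L 1 3 4 7)) (.L 1 3 4 12))) (.N (.N (.N .Z (.L 1 3 6 7)) (.L 1 3 6 9)) (.N (.N (.N .Z (.L 1 3
    8 9)) (.L 1 3 7 9)) (.L 1 3 9 12)))) (.N (.N (.N (.N .Z (.L 2 3 4 7)) (.N (.L 2 3 4 8) (.L 2 3 4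
    9))) (.L 2 3 4 12)) (.L 2 3 9 12))) (.N (.N (.N (.N (.N .Z (.L 1 2 3 7)) (.L 1 2 3 4)) (.L 1 2 3
    4)) (.L 1 2 3 12)) (.N (.L 2 3 4 10) (.L 2 3 10 12))))) (.N (.N (.N (.N (.N (.N .Z (.N .Z (.L 1
    3 4 5))) (.N (.N .Z (.L 1 4 5 9)) (.L 1 3 4 9))) (.N (.N (.N .Z (.L 1 5 6 7)) (.L 1 3 5 6)) (.L
    1 5 9 10))) (.N (.N (.N (.N .Z (.L 2 3 4 5)) (.L 2 3 4 5)) (.L 2 3 4 9)) (.L 2 3 5 10))) (.N (.N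
    (.N (.N (.N .Z (.L 1 2 4 5)) (.L 1 2 3 4)) (.L 1 2 4 10)) (.L 1 2 5 10)) (.L 2 3 5 10))) (.N (.N
    (.N (.N (.N (.N .Z (.L 1 3 4 7)) (.L 1 3 4 6)) (.L 1 3 4 9)) (.L 1 3 9 10)) (.L 2 3 9 10)) (.N
    (.L 1 2 3 10) (.N (.L 2 3 4 10) (.N (.L 2 3 6 10) (.N (.L 2 3 7 10) (.N (.L 2 3 8 10) .Z))))))))
    (.N (.N (.N (.N (.N (.N (.N .Z (.N .Z (.L 1 2 3 5))) (.N (.N .Z (.L 1 2 4 5)) (.L 1 2 3 4))) (.N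
    (.N (.N .Z (.L 1 2 5 6)) (.L 1 2 3 5)) (.L 1 2 5 9))) (.N (.N (.N (.N .Z (.L 2 3 5 6)) (.L 2 3 5
    6)) (.L 2 3 4 9)) (.L 2 3 5 9))) (.N (.N (.N (.N (.N .Z (.L 1 2 4 5)) (.L 1 2 3 4)) (.L 1 2 4
    5)) (.N (.N (.N (.L 1 2 5 8) (.L 1 2 5 6)) (.L 1 2 3 5)) (.L 1 2 5 12))) (.L 2 3 5 12))) (.N (.N
    (.N (.N (.N (.N .Z (.L 1 2 3 7)) (.L 1 2 3 4)) (.L 1 2 3 4)) (.L 1 2 3 9)) (.L 2 3 9 12)) (.N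
    (.L 1 2 3 12) (.N (.L 2 3 4 12) (.N (.N (.L 2 3 6 7) (.N (.L 2 3 6 8) (.N (.L 2 3 6 11) .Z)))
    (.N (.L 2 3 7 12) (.N (.L 2 3 8 12) .Z))))))) (.N (.N (.N (.N (.N (.N (.N .Z (.L 1 2 4 5)) (.L 1
    2 3 4)) (.L 1 2 4 9)) (.N (.L 1 2 5 6) (.L 1 2 5 9))) (.N (.L 2 3 4 9) (.L 2 3 5 9))) (.N (.N
    (.L 1 2 4 5) (.N (.L 1 2 5 6) (.N (.N (.L 1 2 5 8) (.L 1 2 5 7)) (.L 1 2 3 5)))) (.N (.L 2 3 4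
    5) (.N (.L 2 3 5 6) (.N (.L 2 3 5 7) (.N (.L 2 3 5 8) .Z)))))) (.N (.N (.N (.L 1 2 3 4) (.L 1 2
    3 9)) (.N (.L 2 3 4 9) (.N (.L 2 3 6 9) (.N (.L 2 3 7 9) (.N (.L 2 3 8 9) .Z))))) (.N (.N (.L 1
    2 3 4) (.N (.L 1 2 3 6) (.N (.N (.L 1 2 3 8) (.L 1 2 3 7)) (.N (.L 1 2 3 8) .Z)))) (.N (.N (.L 2
    3 4 6) (.N (.L 2 3 4 7) (.N (.L 2 3 4 8) .Z))) (.N (.N (.L 2 3 6 7) (.N (.L 2 3 6 8) .Z)) (.N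
    (.N (.L 2 3 7 8) .Z) .Z))))))))) (.N (.N (.N (.N (.N (.N (.N (.N .Z (.N .Z (.N .Z (.L 0 1 2
    5)))) (.N (.N .Z (.N .Z (.L 0 1 5 6))) (.N (.N .Z (.L 0 2 5 7)) (.L 0 1 2 5)))) (.N (.N (.N .Z
    (.N .Z (.L 0 5 9 10))) (.N (.N .Z (.L 0 2 5 10)) (.L 0 2 5 9))) (.N (.N (.N .Z (.L 0 5 6 10))
    (.L 0 5 6 9)) (.L 0 2 5 10)))) (.N (.N (.N (.N .Z (.N .Z (.L 0 1 2 5))) (.N (.N .Z (.L 0 2 5 7))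
    (.L 0 1 2 5))) (.N (.N (.N .Z (.L 0 2 5 6)) (.L 0 1 2 5)) (.N (.N (.L 0 2 5 8) (.L 0 2 5 7)) (.L
    0 1 2 5)))) (.N (.N (.N (.N .Z (.L 0 2 5 10)) (.L 0 2 5 10)) (.L 0 2 5 10)) (.L 0 2 5 10)))) (.N
    (.N (.N (.N (.N .Z (.N .Z (.L 0 1 2 9))) (.N (.N .Z (.L 0 1 2 7)) (.L 0 1 2 12))) (.N (.N (.N .Z
    (.L 0 1 6 7)) (.L 0 1 2 6)) (.L 0 1 2 9))) (.N (.N (.N (.N .Z (.L 0 2 7 10)) (.N (.L 0 2 8 9)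
    (.L 0 2 9 10))) (.L 0 2 9 12)) (.L 0 2 9 10))) (.N (.N (.N (.N (.N .Z (.L 0 1 2 7)) (.L 0 1 2
    6)) (.L 0 1 2 12)) (.L 0 1 2 12)) (.N (.N (.L 0 2 6 10) (.L 0 2 10 12)) (.L 0 2 10 12))))) (.N
    (.N (.N (.N (.N (.N .Z (.N .Z (.L 0 1 4 5))) (.N (.N .Z (.L 0 2 4 5)) (.L 0 1 2 4))) (.N (.N (.N
    .Z (.L 0 5 6 7)) (.L 0 1 5 6)) (.L 0 2 5 10))) (.N (.N (.N (.N .Z (.L 0 4 5 10)) (.L 0 4 5 9))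
    (.L 0 2 4 5)) (.N (.N (.L 0 5 6 7) (.L 0 5 6 9)) (.L 0 2 5 10)))) (.N (.N (.N (.N (.N .Z (.L 0 2
    4 5)) (.L 0 1 2 4)) (.L 0 2 4 5)) (.L 0 2 5 10)) (.L 0 2 5 10))) (.N (.N (.N (.N (.N (.N .Z (.L
    0 1 4 7)) (.L 0 1 2 4)) (.L 0 1 2 4)) (.L 0 1 9 10)) (.L 0 2 9 10)) (.N (.L 0 1 2 10) (.N (.L 0
    2 4 10) (.N (.L 0 2 6 10) (.N (.L 0 2 7 10) (.N (.L 0 2 8 10) .Z)))))))) (.N (.N (.N (.N (.N (.N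
    (.N .Z (.N .Z (.L 0 1 2 5))) (.N (.N .Z (.L 0 2 4 5)) (.L 0 1 2 4))) (.N (.N (.N .Z (.L 0 2 5
    6)) (.L 0 1 2 5)) (.L 0 2 5 9))) (.N (.N (.N (.N .Z (.N .Z (.L 0 2 4 5))) (.L 0 2 5 9)) (.L 0 2
    4 5)) (.L 0 2 5 12))) (.N (.N (.N (.N (.N .Z (.L 0 2 4 5)) (.L 0 1 2 4)) (.L 0 2 4 5)) (.N (.N
    (.N (.L 0 2 5 8) (.L 0 2 5 6)) (.L 0 1 2 5)) (.N (.N (.L 0 2 5 8) (.L 0 2 5 7)) (.L 0 1 2 5))))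
    (.L 0 2 5 12))) (.N (.N (.N (.N (.N (.N .Z (.L 0 1 2 7)) (.L 0 1 2 4)) (.L 0 1 2 4)) (.L 0 1 2
    9)) (.L 0 2 9 12)) (.N (.L 0 1 2 12) (.N (.N (.L 0 2 4 6) (.L 0 2 4 12)) (.N (.L 0 2 6 12) (.N
    (.L 0 2 7 12) (.N (.L 0 2 8 12) .Z))))))) (.N (.N (.N (.N (.N (.N (.N .Z (.L 0 2 4 5)) (.L 0 1 2
    4)) (.L 0 2 4 9)) (.N (.L 0 2 5 6) (.L 0 2 5 9))) (.N (.L 0 2 4 5) (.N (.L 0 2 5 6) (.L 0 2 5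
    9)))) (.N (.N (.L 0 2 4 5) (.N (.L 0 2 5 6) (.N (.N (.L 0 2 5 8) (.L 0 2 5 7)) (.L 0 1 2 5))))
    (.N (.L 0 2 4 5) (.N (.L 0 2 5 6) (.N (.L 0 2 5 7) (.N (.L 0 2 5 8) .Z)))))) (.N (.N (.N (.L 0 1
    2 4) (.L 0 1 2 9)) (.N (.L 0 2 4 9) (.N (.L 0 2 6 9) (.N (.L 0 2 7 9) (.N (.L 0 2 8 9) .Z)))))
    (.N (.N (.L 0 1 2 4) (.N (.L 0 1 2 6) (.N (.N (.L 0 1 2 8) (.L 0 1 2 7)) (.N (.L 0 1 2 8) .Z))))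
    (.N (.N (.L 0 2 4 6) (.N (.L 0 2 4 7) (.N (.L 0 2 4 8) .Z))) (.N (.N (.L 0 2 6 7) (.N (.L 0 2 6
    8) .Z)) (.N (.N (.L 0 2 7 8) .Z) .Z)))))))) (.N (.N (.N (.N (.N (.N (.N (.N .Z (.N .Z (.L 1 2 5
    6))) (.N (.N .Z (.L 1 2 4 5)) (.N (.L 1 2 4 8) (.L 1 2 4 5)))) (.N (.N (.N .Z (.L 1 2 5 6)) (.L
    1 2 5 6)) (.L 1 2 5 9))) (.N (.N (.N (.N .Z (.L 2 5 6 10)) (.L 2 5 6 9)) (.L 2 4 5 9)) (.L 2 5 9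
    10))) (.N (.N (.N (.N (.N .Z (.L 1 2 4 5)) (.L 1 2 4 6)) (.L 1 2 4 5)) (.L 1 2 5 12)) (.N (.L 2
    4 5 10) (.L 2 5 10 12)))) (.N (.N (.N (.N (.N (.N .Z (.L 1 2 4 7)) (.L 1 2 4 6)) (.L 1 2 4 12))
    (.L 1 2 9 12)) (.N (.N (.L 2 4 6 9) (.L 2 4 9 12)) (.L 2 9 10 12))) (.N (.N (.N (.N (.L 1 2 4 7)
    (.L 1 2 4 6)) (.L 1 2 4 12)) (.N (.L 1 2 6 12) (.N (.L 1 2 7 12) (.N (.L 1 2 8 12) (.N (.L 1 2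
    11 12) .Z))))) (.N (.N (.L 2 4 6 10) (.L 2 4 10 12)) (.N (.L 2 6 10 12) (.N (.L 2 7 10 12) (.N
    (.L 2 8 10 12) .Z))))))) (.N (.N (.N (.N (.N (.N (.N .Z (.L 1 2 4 5)) (.L 1 2 4 6)) (.L 1 2 4
    9)) (.L 1 2 5 10)) (.L 2 5 9 10)) (.N (.L 1 2 5 10) (.N (.L 2 4 5 10) (.N (.N (.L 2 5 6 7) (.L 2
    5 6 10)) (.N (.L 2 5 7 10) (.N (.L 2 5 8 10) .Z)))))) (.N (.N (.L 1 2 9 10) (.N (.N (.L 2 4 6 9)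
    (.N (.L 2 4 7 9) (.N (.L 2 4 8 9) (.L 2 4 9 10)))) (.N (.L 2 6 9 10) (.N (.L 2 7 9 10) (.N (.L 2
    8 9 10) .Z))))) (.N (.N (.L 1 2 4 10) (.N (.L 1 2 6 10) (.N (.L 1 2 7 10) (.N (.L 1 2 8 10)
    .Z)))) (.N (.N (.L 2 4 6 10) (.N (.L 2 4 7 10) (.N (.L 2 4 8 10) .Z))) (.N (.N (.L 2 6 7 10) (.N
    (.L 2 6 8 10) .Z)) (.N (.N (.L 2 7 8 10) .Z) .Z))))))) (.N (.N (.N (.N (.N (.N (.N (.N .Z (.L 1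
    2 5 12)) (.L 1 2 6 12)) (.L 1 2 4 12)) (.L 1 2 5 12)) (.L 2 5 9 12)) (.N (.L 1 2 5 12) (.N (.L 2
    4 5 12) (.N (.L 2 5 6 12) (.N (.L 2 5 7 12) (.N (.L 2 5 8 12) .Z)))))) (.N (.N (.L 1 2 9 12) (.N
    (.L 2 4 9 12) (.N (.L 2 6 9 12) (.N (.L 2 7 9 12) (.N (.L 2 8 9 12) .Z))))) (.N (.N (.L 1 2 4
    12) (.N (.L 1 2 6 12) (.N (.L 1 2 7 12) (.N (.L 1 2 8 12) .Z)))) (.N (.N (.L 2 4 6 12) (.N (.L 2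
    4 7 12) (.N (.L 2 4 8 12) .Z))) (.N (.N (.L 2 6 7 12) (.N (.L 2 6 8 12) .Z)) (.N (.N (.L 2 7 8
    12) .Z) .Z)))))) (.N (.N (.N (.N (.N (.N (.N (.N .Z (.L 1 2 4 5)) (.L 1 2 4 5)) (.L 1 2 4 6))
    (.L 1 2 4 9)) (.N (.L 1 2 5 6) (.L 1 2 5 9))) (.N (.L 2 4 5 9) (.N (.L 2 5 6 9) (.N (.L 2 5 7 9)
    (.N (.L 2 5 8 9) .Z))))) (.N (.N (.L 1 2 4 5) (.N (.L 1 2 5 6) (.N (.N (.L 1 2 5 8) (.L 1 2 5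
    7)) (.N (.L 1 2 5 8) .Z)))) (.N (.N (.L 2 4 5 6) (.N (.L 2 4 5 7) (.N (.L 2 4 5 8) .Z))) (.N (.N
    (.L 2 5 6 7) (.N (.L 2 5 6 8) .Z)) (.N (.N (.L 2 5 7 8) .Z) .Z))))) (.N (.N (.N (.L 1 2 4 9) (.N
    (.L 1 2 6 9) (.N (.L 1 2 7 9) (.N (.L 1 2 8 9) .Z)))) (.N (.N (.L 2 4 6 9) (.N (.L 2 4 7 9) (.N
    (.L 2 4 8 9) .Z))) (.N (.N (.L 2 6 7 9) (.N (.L 2 6 8 9) .Z)) (.N (.N (.L 2 7 8 9) .Z) .Z))))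
    (.N (.N (.N (.N (.L 1 2 4 7) (.L 1 2 4 6)) (.N (.L 1 2 4 7) (.N (.L 1 2 4 8) .Z))) (.N (.N (.L 1
    2 6 7) (.N (.L 1 2 6 8) .Z)) (.N (.N (.L 1 2 7 8) .Z) .Z))) (.N (.N (.N (.L 2 4 6 7) (.N (.L 2 4
    6 8) .Z)) (.N (.N (.L 2 4 7 8) .Z) .Z)) (.N (.N (.N (.L 2 6 7 8) .Z) .Z) .Z))))))))) (.N (.N (.N
    (.N (.N (.N (.N (.N (.N .Z (.N .Z (.N .Z (.L 0 1 3 5)))) (.N (.N .Z (.N .Z (.L 1 3 5 6))) (.N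
    (.N .Z (.L 0 1 5 7)) (.L 0 1 3 5)))) (.N (.N (.N .Z (.N .Z (.L 0 3 5 9))) (.N (.N .Z (.L 0 3 4
    5)) (.L 0 3 4 5))) (.N (.N (.N .Z (.L 0 3 5 6)) (.L 0 3 5 6)) (.N (.L 0 3 5 7) (.L 0 3 5 9)))))
    (.N (.N (.N (.N .Z (.N .Z (.L 1 3 4 5))) (.N (.N .Z (.L 0 1 3 5)) (.L 0 1 3 4))) (.N (.N (.N .Z
    (.L 1 3 5 6)) (.L 1 3 5 6)) (.L 0 1 3 5))) (.N (.N (.N (.N .Z (.L 0 3 4 5)) (.L 0 3 4 5)) (.L 0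
    3 4 12)) (.L 0 3 5 12)))) (.N (.N (.N (.N (.N .Z (.N .Z (.L 0 1 3 9))) (.N (.N .Z (.L 0 1 3 7))
    (.L 0 1 3 12))) (.N (.N (.N .Z (.L 0 1 6 7)) (.L 0 1 3 6)) (.L 0 1 3 9))) (.N (.N (.N (.N .Z (.L
    0 3 4 7)) (.N (.L 0 3 4 8) (.L 0 3 4 9))) (.L 0 3 4 12)) (.L 0 3 9 12))) (.N (.N (.N (.N (.N .Z
    (.L 0 1 3 7)) (.L 0 1 3 4)) (.L 0 1 3 4)) (.L 0 1 3 12)) (.N (.N (.L 0 3 4 6) (.L 0 3 4 12)) (.N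
    (.L 0 3 6 12) (.N (.L 0 3 7 12) (.N (.L 0 3 8 12) (.N (.L 0 3 11 12) .Z)))))))) (.N (.N (.N (.N
    (.N (.N .Z (.N .Z (.L 1 3 4 5))) (.N (.N .Z (.L 0 1 4 5)) (.L 0 1 3 4))) (.N (.N (.N .Z (.L 1 5
    6 7)) (.L 1 3 5 6)) (.L 0 1 5 10))) (.N (.N (.N (.N .Z (.L 0 3 4 5)) (.L 0 3 4 5)) (.L 0 3 4 5))
    (.L 0 3 5 10))) (.N (.N (.N (.N (.N .Z (.L 1 3 4 5)) (.L 1 3 4 10)) (.L 0 1 3 4)) (.L 1 3 5 10))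
    (.L 0 3 5 10))) (.N (.N (.N (.N (.N (.N .Z (.L 0 1 4 7)) (.L 0 1 3 4)) (.L 0 1 3 4)) (.L 0 1 9
    10)) (.L 0 3 9 10)) (.N (.L 0 1 3 10) (.N (.L 0 3 4 10) (.N (.L 0 3 6 10) (.N (.L 0 3 7 10) (.N
    (.L 0 3 8 10) .Z)))))))) (.N (.N (.N (.N (.N (.N (.N .Z (.N .Z (.L 1 3 5 9))) (.N (.N .Z (.L 0 1
    3 5)) (.L 0 1 3 5))) (.N (.N (.N .Z (.L 1 3 5 6)) (.L 1 3 5 6)) (.L 0 1 3 5))) (.N (.N (.N (.N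
    .Z (.L 0 3 5 12)) (.L 0 3 5 12)) (.L 0 3 4 12)) (.L 0 3 5 12))) (.N (.N (.N (.N (.N .Z (.L 1 3 4
    5)) (.L 1 3 4 5)) (.L 0 1 3 4)) (.N (.N (.N (.L 1 3 5 8) (.L 1 3 5 6)) (.L 1 3 5 6)) (.L 0 1 3
    5))) (.L 0 3 5 12))) (.N (.N (.N (.N (.N (.N .Z (.L 0 1 3 7)) (.L 0 1 3 12)) (.N (.L 0 1 3 7)
    (.L 0 1 3 12))) (.L 0 1 3 9)) (.L 0 3 9 12)) (.N (.L 0 1 3 12) (.N (.L 0 3 4 12) (.N (.L 0 3 6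
    12) (.N (.L 0 3 7 12) (.N (.L 0 3 8 12) .Z))))))) (.N (.N (.N (.N (.N (.N (.N .Z (.L 1 3 4 5))
    (.L 1 3 4 5)) (.L 0 1 3 4)) (.N (.L 1 3 5 6) (.L 0 1 3 5))) (.N (.N (.N (.N (.N .Z (.L 0 3 4 5))
    (.L 0 3 4 5)) (.L 0 3 4 5)) (.L 0 3 4 5)) (.N (.L 0 3 5 6) (.N (.L 0 3 5 7) (.L 0 3 5 9))))) (.N
    (.N (.L 1 3 4 5) (.N (.L 1 3 5 6) (.L 0 1 3 5))) (.N (.L 0 3 4 5) (.N (.L 0 3 5 6) (.N (.L 0 3 5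
    7) (.N (.L 0 3 5 8) .Z)))))) (.N (.N (.N (.L 0 1 3 4) (.L 0 1 3 9)) (.N (.L 0 3 4 9) (.N (.L 0 3
    6 9) (.N (.L 0 3 7 9) (.N (.L 0 3 8 9) .Z))))) (.N (.N (.L 0 1 3 4) (.N (.L 0 1 3 6) (.N (.L 0 1
    3 7) (.N (.L 0 1 3 8) .Z)))) (.N (.N (.L 0 3 4 6) (.N (.L 0 3 4 7) (.N (.L 0 3 4 8) .Z))) (.N
    (.N (.N (.L 0 3 6 8) (.L 0 3 6 7)) (.N (.L 0 3 6 8) .Z)) (.N (.N (.L 0 3 7 8) .Z) .Z)))))))) (.N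
    (.N (.N (.N (.N (.N (.N (.N .Z (.N .Z (.L 1 3 5 6))) (.N (.N .Z (.L 1 4 5 7)) (.L 1 3 4 5))) (.N
    (.N (.N .Z (.L 1 5 6 10)) (.L 1 3 5 10)) (.L 1 5 9 10))) (.N (.N (.N (.N .Z (.L 3 5 6 9)) (.N
    (.L 3 5 6 8) (.L 3 5 6 9))) (.L 3 4 5 9)) (.L 3 5 9 10))) (.N (.N (.N (.N (.N .Z (.L 1 3 5 6))
    (.L 1 3 4 5)) (.L 1 3 4 5)) (.L 1 3 5 10)) (.N (.L 3 4 5 10) (.L 3 5 10 12)))) (.N (.N (.N (.N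
    (.N (.N .Z (.L 1 3 6 7)) (.L 1 3 4 6)) (.L 1 3 4 9)) (.L 1 3 9 10)) (.N (.N (.N (.L 3 4 6 7) (.N
    (.L 3 4 6 8) (.L 3 4 6 9))) (.L 3 4 9 12)) (.L 3 9 10 12))) (.N (.N (.N (.L 1 3 6 10) (.L 1 3 4
    10)) (.L 1 3 10 12)) (.N (.N (.L 3 4 6 10) (.L 3 4 10 12)) (.N (.L 3 6 10 12) (.N (.L 3 7 10 12)
    (.N (.L 3 8 10 12) .Z))))))) (.N (.N (.N (.N (.N (.N (.N .Z (.L 1 4 5 6)) (.L 1 3 4 5)) (.L 1 4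
    5 9)) (.N (.L 1 5 6 10) (.L 1 5 9 10))) (.L 3 5 9 10)) (.N (.L 1 3 5 10) (.N (.L 3 4 5 10) (.N
    (.L 3 5 6 10) (.N (.L 3 5 7 10) (.N (.L 3 5 8 10) .Z)))))) (.N (.N (.L 1 3 9 10) (.N (.N (.N (.L
    3 4 6 7) (.N (.L 3 4 6 8) (.L 3 4 6 9))) (.N (.L 3 4 7 9) (.N (.L 3 4 8 9) (.L 3 4 9 10)))) (.N
    (.L 3 6 9 10) (.N (.L 3 7 9 10) (.N (.L 3 8 9 10) .Z))))) (.N (.N (.L 1 3 4 10) (.N (.L 1 3 6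
    10) (.N (.L 1 3 7 10) (.N (.N (.L 1 3 10 11) .Z) .Z)))) (.N (.N (.L 3 4 6 10) (.N (.L 3 4 7 10)
    (.N (.L 3 4 8 10) .Z))) (.N (.N (.L 3 6 7 10) (.N (.L 3 6 8 10) .Z)) (.N (.N (.L 3 7 8 10) .Z)
    .Z))))))) (.N (.N (.N (.N (.N (.N (.N (.N .Z (.L 1 3 5 6)) (.L 1 3 5 6)) (.L 1 3 4 5)) (.L 1 3 5
    12)) (.L 3 5 9 12)) (.N (.L 1 3 5 12) (.N (.L 3 4 5 12) (.N (.L 3 5 6 12) (.N (.L 3 5 7 12) (.N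
    (.L 3 5 8 12) .Z)))))) (.N (.N (.L 1 3 9 12) (.N (.L 3 4 9 12) (.N (.L 3 6 9 12) (.N (.L 3 7 9
    12) (.N (.L 3 8 9 12) .Z))))) (.N (.N (.N (.L 1 3 4 6) (.N (.L 1 3 4 7) (.L 1 3 4 12))) (.N (.L
    1 3 6 12) (.N (.L 1 3 7 12) (.N (.L 1 3 8 12) .Z)))) (.N (.N (.L 3 4 6 12) (.N (.L 3 4 7 12) (.N
    (.L 3 4 8 12) .Z))) (.N (.N (.L 3 6 7 12) (.N (.L 3 6 8 12) .Z)) (.N (.N (.L 3 7 8 12) .Z)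
    .Z)))))) (.N (.N (.N (.N (.L 1 3 4 5) (.N (.L 1 3 5 6) (.L 1 3 5 9))) (.N (.L 3 4 5 9) (.N (.L 3
    5 6 9) (.N (.L 3 5 7 9) (.N (.L 3 5 8 9) .Z))))) (.N (.N (.L 1 3 4 5) (.N (.L 1 3 5 6) (.N (.N
    (.L 1 3 5 8) (.L 1 3 5 7)) (.N (.L 1 3 5 8) .Z)))) (.N (.N (.L 3 4 5 6) (.N (.L 3 4 5 7) (.N (.L
    3 4 5 8) .Z))) (.N (.N (.L 3 5 6 7) (.N (.L 3 5 6 8) .Z)) (.N (.N (.L 3 5 7 8) .Z) .Z))))) (.N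
    (.N (.N (.L 1 3 4 9) (.N (.L 1 3 6 9) (.N (.L 1 3 7 9) (.N (.L 1 3 8 9) .Z)))) (.N (.N (.N (.L 3
    4 6 7) (.N (.L 3 4 6 8) (.L 3 4 6 9))) (.N (.L 3 4 7 9) (.N (.L 3 4 8 9) .Z))) (.N (.N (.L 3 6 7
    9) (.N (.L 3 6 8 9) .Z)) (.N (.N (.L 3 7 8 9) .Z) .Z)))) (.N (.N (.N (.L 1 3 4 6) (.N (.L 1 3 4
    7) (.N (.L 1 3 4 8) .Z))) (.N (.N (.L 1 3 6 7) (.N (.L 1 3 6 8) .Z)) (.N (.N (.L 1 3 7 8) .Z)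
    .Z))) (.N (.N (.N (.L 3 4 6 7) (.N (.L 3 4 6 8) .Z)) (.N (.N (.L 3 4 7 8) .Z) .Z)) (.N (.N (.N
    (.L 3 6 7 8) .Z) .Z) .Z)))))))) (.N (.N (.N (.N (.N (.N (.N (.N (.N .Z (.N .Z (.L 0 1 5 10)))
    (.N (.N .Z (.L 0 1 4 5)) (.L 0 1 4 5))) (.N (.N (.N .Z (.L 0 1 5 6)) (.L 0 1 5 6)) (.L 0 1 5
    10))) (.N (.N (.N (.N .Z (.L 0 5 9 10)) (.N (.L 0 5 8 9) (.L 0 5 9 10))) (.L 0 4 5 9)) (.L 0 5 9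
    10))) (.N (.N (.N (.N (.N .Z (.L 0 1 4 5)) (.L 0 1 4 5)) (.L 0 1 4 5)) (.L 0 1 5 10)) (.N (.L 0
    4 5 10) (.L 0 5 10 12)))) (.N (.N (.N (.N (.N (.N .Z (.L 0 1 4 7)) (.L 0 1 4 9)) (.L 0 1 4 9))
    (.L 0 1 9 12)) (.N (.N (.N (.L 0 4 7 9) (.N (.L 0 4 8 9) (.L 0 4 9 10))) (.L 0 4 9 12)) (.L 0 9
    10 12))) (.N (.N (.L 0 1 4 10) (.L 0 1 10 12)) (.N (.N (.L 0 4 6 10) (.L 0 4 10 12)) (.N (.L 0 6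
    10 12) (.N (.L 0 7 10 12) (.N (.L 0 8 10 12) .Z))))))) (.N (.N (.N (.N (.N (.N (.N .Z (.L 0 1 4
    5)) (.L 0 1 4 5)) (.N (.N (.N .Z (.L 0 1 4 5)) (.L 0 1 4 5)) (.L 0 1 4 5))) (.L 0 1 5 10)) (.L 0
    5 9 10)) (.N (.L 0 1 5 10) (.N (.L 0 4 5 10) (.N (.L 0 5 6 10) (.N (.L 0 5 7 10) (.N (.L 0 5 8
    10) .Z)))))) (.N (.N (.L 0 1 9 10) (.N (.N (.L 0 4 6 9) (.N (.L 0 4 7 9) (.N (.L 0 4 8 9) (.L 0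
    4 9 10)))) (.N (.L 0 6 9 10) (.N (.L 0 7 9 10) (.N (.L 0 8 9 10) .Z))))) (.N (.N (.L 0 1 4 10)
    (.N (.L 0 1 6 10) (.N (.L 0 1 7 10) (.N (.L 0 1 8 10) .Z)))) (.N (.N (.L 0 4 6 10) (.N (.L 0 4 7
    10) (.N (.L 0 4 8 10) .Z))) (.N (.N (.L 0 6 7 10) (.N (.L 0 6 8 10) .Z)) (.N (.N (.L 0 7 8 10)
    .Z) .Z))))))) (.N (.N (.N (.N (.N (.N (.N (.N .Z (.L 0 1 5 9)) (.L 0 1 5 9)) (.L 0 1 4 9)) (.L 0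
    1 5 9)) (.L 0 5 9 12)) (.N (.L 0 1 5 12) (.N (.L 0 4 5 12) (.N (.L 0 5 6 12) (.N (.L 0 5 7 12)
    (.N (.L 0 5 8 12) .Z)))))) (.N (.N (.L 0 1 9 12) (.N (.L 0 4 9 12) (.N (.L 0 6 9 12) (.N (.L 0 7
    9 12) (.N (.L 0 8 9 12) .Z))))) (.N (.N (.L 0 1 4 12) (.N (.L 0 1 6 12) (.N (.L 0 1 7 12) (.N
    (.L 0 1 8 12) .Z)))) (.N (.N (.L 0 4 6 12) (.N (.L 0 4 7 12) (.N (.L 0 4 8 12) .Z))) (.N (.N (.L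
    0 6 7 12) (.N (.L 0 6 8 12) .Z)) (.N (.N (.L 0 7 8 12) .Z) .Z)))))) (.N (.N (.N (.N (.L 0 1 4 9)
    (.L 0 1 5 9)) (.N (.L 0 4 5 9) (.N (.L 0 5 6 9) (.N (.L 0 5 7 9) (.N (.L 0 5 8 9) .Z))))) (.N
    (.N (.L 0 1 4 5) (.N (.L 0 1 5 6) (.N (.N (.L 0 1 5 8) (.L 0 1 5 7)) (.N (.L 0 1 5 8) .Z)))) (.N
    (.N (.N (.L 0 4 5 7) (.N (.L 0 4 5 8) (.N (.L 0 4 5 11) .Z))) (.N (.L 0 4 5 7) (.N (.L 0 4 5 8)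
    .Z))) (.N (.N (.L 0 5 6 7) (.N (.L 0 5 6 8) .Z)) (.N (.N (.L 0 5 7 8) .Z) .Z))))) (.N (.N (.N
    (.L 0 1 4 9) (.N (.L 0 1 6 9) (.N (.L 0 1 7 9) (.N (.L 0 1 8 9) .Z)))) (.N (.N (.L 0 4 6 9) (.N
    (.L 0 4 7 9) (.N (.L 0 4 8 9) .Z))) (.N (.N (.L 0 6 7 9) (.N (.L 0 6 8 9) .Z)) (.N (.N (.L 0 7 8
    9) .Z) .Z)))) (.N (.N (.N (.L 0 1 4 6) (.N (.L 0 1 4 7) (.N (.L 0 1 4 8) .Z))) (.N (.N (.L 0 1 6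
    7) (.N (.L 0 1 6 8) .Z)) (.N (.N (.L 0 1 7 8) .Z) .Z))) (.N (.N (.N (.L 0 4 6 7) (.N (.L 0 4 6
    8) .Z)) (.N (.N (.L 0 4 7 8) .Z) .Z)) (.N (.N (.N (.L 0 6 7 8) .Z) .Z) .Z))))))) (.N (.N (.N (.N
    (.N (.N (.N (.N (.N .Z (.L 1 5 6 9)) (.L 1 5 6 9)) (.L 1 4 5 9)) (.L 1 5 9 10)) (.N (.N (.N (.N
    (.N .Z (.L 4 5 6 9)) (.L 5 6 9 10)) (.N (.L 5 6 8 9) (.L 5 6 9 10))) (.N (.L 4 5 7 9) (.N (.L 4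
    5 8 9) (.L 4 5 9 10)))) (.N (.L 5 6 9 10) (.N (.L 5 7 9 10) (.N (.L 5 8 9 10) (.L 5 9 10
    12)))))) (.N (.N (.L 1 4 5 10) (.L 1 5 10 12)) (.N (.N (.L 4 5 6 10) (.L 4 5 10 12)) (.N (.L 5 6
    10 12) (.N (.L 5 7 10 12) (.N (.L 5 8 10 12) .Z)))))) (.N (.N (.N (.N (.L 1 4 6 9) (.L 1 4 9
    12)) (.L 1 9 10 12)) (.N (.N (.N (.L 4 6 7 9) (.N (.L 4 6 8 9) (.L 4 6 9 10))) (.N (.L 4 7 9 12)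
    (.N (.L 4 8 9 12) (.L 4 9 10 12)))) (.N (.L 6 9 10 12) (.N (.L 7 9 10 12) (.N (.L 8 9 10 12)
    .Z))))) (.N (.N (.N (.L 1 4 6 10) (.L 1 4 10 12)) (.N (.L 1 6 10 12) (.N (.L 1 7 10 12) (.N (.L
    1 8 10 12) .Z)))) (.N (.N (.N (.L 4 6 7 10) (.N (.L 4 6 8 10) (.N (.L 4 6 10 11) .Z))) (.N (.L 4
    7 10 12) (.N (.L 4 8 10 12) .Z))) (.N (.N (.L 6 7 10 12) (.N (.L 6 8 10 12) .Z)) (.N (.N (.L 7 8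
    10 12) .Z) .Z)))))) (.N (.N (.N (.L 1 5 9 10) (.N (.N (.L 4 5 6 9) (.N (.L 4 5 7 9) (.N (.L 4 5
    8 9) (.L 4 5 9 10)))) (.N (.L 5 6 9 10) (.N (.L 5 7 9 10) (.N (.L 5 8 9 10) .Z))))) (.N (.N (.L
    1 4 5 10) (.N (.L 1 5 6 10) (.N (.N (.L 1 5 8 10) (.L 1 5 7 10)) (.N (.L 1 5 8 10) .Z)))) (.N
    (.N (.L 4 5 6 10) (.N (.L 4 5 7 10) (.N (.L 4 5 8 10) .Z))) (.N (.N (.L 5 6 7 10) (.N (.L 5 6 8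
    10) .Z)) (.N (.N (.L 5 7 8 10) .Z) .Z))))) (.N (.N (.N (.N (.L 1 4 6 9) (.N (.L 1 4 7 9) (.N (.L
    1 4 8 9) (.L 1 4 9 10)))) (.N (.L 1 6 9 10) (.N (.L 1 7 9 10) (.N (.L 1 8 9 10) .Z)))) (.N (.N
    (.N (.L 4 6 7 9) (.N (.L 4 6 8 9) (.L 4 6 9 10))) (.N (.N (.L 4 7 8 9) (.L 4 7 9 10)) (.N (.N
    (.L 4 8 9 11) .Z) .Z))) (.N (.N (.L 6 7 9 10) (.N (.L 6 8 9 10) .Z)) (.N (.N (.L 7 8 9 10) .Z)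
    .Z)))) (.N (.N (.N (.L 1 4 6 10) (.N (.L 1 4 7 10) (.N (.L 1 4 8 10) .Z))) (.N (.N (.L 1 6 7 10)
    (.N (.L 1 6 8 10) .Z)) (.N (.N (.L 1 7 8 10) .Z) .Z))) (.N (.N (.N (.L 4 6 7 10) (.N (.L 4 6 8
    10) .Z)) (.N (.N (.L 4 7 8 10) .Z) .Z)) (.N (.N (.N (.L 6 7 8 10) .Z) .Z) .Z)))))) (.N (.N (.N
    (.N (.L 1 5 9 12) (.N (.N (.L 5 6 9 12) (.L 4 5 9 12)) (.N (.L 5 6 9 12) (.N (.L 5 7 9 12) (.N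
    (.L 5 8 9 12) .Z))))) (.N (.N (.L 1 4 5 12) (.N (.N (.N (.L 1 5 8 12) (.L 1 5 6 12)) (.L 1 5 6
    12)) (.N (.N (.L 1 5 8 12) (.L 1 5 7 12)) (.N (.L 1 5 8 12) .Z)))) (.N (.N (.L 4 5 6 12) (.N (.L
    4 5 7 12) (.N (.L 4 5 8 12) .Z))) (.N (.N (.N (.L 5 6 8 12) (.N (.L 5 6 11 12) .Z)) (.N (.L 5 6
    8 12) .Z)) (.N (.N (.L 5 7 8 12) .Z) .Z))))) (.N (.N (.N (.L 1 4 9 12) (.N (.L 1 6 9 12) (.N (.L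
    1 7 9 12) (.N (.L 1 8 9 12) .Z)))) (.N (.N (.L 4 6 9 12) (.N (.L 4 7 9 12) (.N (.L 4 8 9 12)
    .Z))) (.N (.N (.L 6 7 9 12) (.N (.L 6 8 9 12) .Z)) (.N (.N (.L 7 8 9 12) .Z) .Z)))) (.N (.N (.N
    (.L 1 4 6 12) (.N (.L 1 4 7 12) (.N (.L 1 4 8 12) .Z))) (.N (.N (.L 1 6 7 12) (.N (.L 1 6 8 12)
    .Z)) (.N (.N (.L 1 7 8 12) .Z) .Z))) (.N (.N (.N (.L 4 6 7 12) (.N (.L 4 6 8 12) .Z)) (.N (.N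
    (.L 4 7 8 12) .Z) .Z)) (.N (.N (.N (.L 6 7 8 12) .Z) .Z) .Z))))) (.N (.N (.N (.N (.L 1 4 5 9)
    (.N (.L 1 5 6 9) (.N (.N (.N (.L 1 5 9 11) (.L 1 5 8 9)) (.L 1 5 7 9)) (.N (.L 1 5 8 9) .Z))))
    (.N (.N (.L 4 5 6 9) (.N (.L 4 5 7 9) (.N (.L 4 5 8 9) .Z))) (.N (.N (.L 5 6 7 9) (.N (.L 5 6 8
    9) .Z)) (.N (.N (.N (.L 5 7 9 11) .Z) .Z) .Z)))) (.N (.N (.N (.L 1 4 5 6) (.N (.N (.L 1 4 5 8)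
    (.L 1 4 5 7)) (.N (.L 1 4 5 8) .Z))) (.N (.N (.N (.L 1 5 6 8) (.L 1 5 6 7)) (.N (.L 1 5 6 8)
    .Z)) (.N (.N (.N (.L 1 5 8 11) .Z) .Z) .Z))) (.N (.N (.N (.L 4 5 6 7) (.N (.L 4 5 6 8) .Z)) (.N
    (.N (.L 4 5 7 8) .Z) .Z)) (.N (.N (.N (.L 5 6 7 8) .Z) .Z) .Z)))) (.N (.N (.N (.N (.L 1 4 6 9)
    (.N (.L 1 4 7 9) (.N (.L 1 4 8 9) .Z))) (.N (.N (.L 1 6 7 9) (.N (.L 1 6 8 9) .Z)) (.N (.N (.N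
    (.L 1 7 9 11) .Z) .Z) .Z))) (.N (.N (.N (.L 4 6 7 9) (.N (.L 4 6 8 9) .Z)) (.N (.N (.L 4 7 8 9)
    .Z) .Z)) (.N (.N (.N (.L 6 7 8 9) .Z) .Z) .Z))) (.N (.N (.N (.N (.L 1 4 6 7) (.N (.L 1 4 6 8)
    .Z)) (.N (.N (.L 1 4 7 8) .Z) .Z)) (.N (.N (.N (.L 1 6 7 8) .Z) .Z) .Z)) (.N (.N (.N (.N (.L 4 6
    7 8) .Z) .Z) .Z) .Z)))))))))

theorem chk_cert : chk [2, 3, 0, 10, 12, 5, 9, 1, 4, 6, 7, 8, 11] 0 0 cert = true := by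
  decide +kernel

end Pool.Agent.CableTerm
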