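import Mathlib

set_option autoImplicit false

/-!
# Rank-width and split-free cable term width: definitions
-/

namespace Pool.Agent.CableTerm

/-- The cutrank `ρ_G(X)`: the rank over `GF(2)` of the `X × (V ∖ X)` submatrix of the adjacency
matrix of `G`. -/
noncomputable def cutRank {V : Type} [Fintype V] (G : SimpleGraph V) (X : Finset V) : ℕ :=
  open Classical in
  (Matrix.of fun (x : {x // x ∈ X}) (y : {y // y ∉ X}) =>
    if G.Adj x.1 y.1 then (1 : ZMod 2) else 0).rank

/-- A rank-decomposition of the vertex set `V`: a finite tree all of whose nodes have degree at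
most three (nodes are numbered `0, …, N - 1`), with a bijection from `V` to its leaves. -/
structure RankDecomposition (V : Type) where
  /-- number of nodes of the tree -/
  N : ℕ
  /-- the tree -/
  T : SimpleGraph (Fin N)
  isTree : T.IsTree
  subcubic : ∀ w : Fin N, (T.neighborSet w).ncard ≤ 3
  /-- the bijection from `V` to the leaves (nodes of degree one) -/
  leaf : V ≃ {w : Fin N // (T.neighborSet w).ncard = 1}

/-- For an edge `ab` of the tree, the set of all vertices whose leaf lies in the component of `a`
after the edge `ab` has been deleted. -/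
noncomputable def RankDecomposition.side {V : Type} [Fintype V] (D : RankDecomposition V)
    (a b : Fin D.N) : Finset V :=
  open Classical in
  Finset.univ.filter fun v => (D.T.deleteEdges {s(a, b)}).Reachable a (D.leaf v).1

/-- The decomposition has width at most `k`. -/
def RankDecomposition.WidthLE {V : Type} [Fintype V] (G : SimpleGraph V) (D : RankDecomposition V)
    (k : ℕ) : Prop :=
  ∀ a b : Fin D.N, D.T.Adj a b → cutRank G (D.side a b) ≤ k

/-- Rank-width: `0` for graphs with at most one vertex, otherwise the least width of a
rank-decomposition. -/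
noncomputable def rankWidth {V : Type} [Fintype V] (G : SimpleGraph V) : ℕ :=
  if Fintype.card V ≤ 1 then 0 else sInf {k | ∃ D : RankDecomposition V, D.WidthLE G k}

/-- Split-free cable terms over the vertex set `V`; `Term V p q` is the type of the terms of
type `p → q`.  Letters: `e` (identity), `nu S` (create the nonempty set `S` as one cable),
`kappa` (discard), `phi` (replace two cables by their union), `B` (all edges between two cables),
`K` (all edges inside a cable).  `comp s σ t` is `s ∘ t` (first `s`, then `t`), where the `q`
live cables may be reordered freely by `σ` in between; `par s t` is `s □ t`. -/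
inductive Term (V : Type) : ℕ → ℕ → Type
  | e : Term V 1 1
  | nu (S : Finset V) (hS : S.Nonempty) : Term V 0 1
  | kappa : Term V 1 0
  | phi : Term V 2 1
  | B : Term V 2 2
  | K : Term V 1 1
  | comp {p q r : ℕ} (s : Term V p q) (σ : Equiv.Perm (Fin q)) (t : Term V q r) : Term V p r
  | par {p q p' q' : ℕ} (s : Term V p q) (t : Term V p' q') : Term V (p + p') (q + q')

/-- The list of output cables, given the list of input cables. -/
def Term.out {V : Type} [DecidableEq V] :
    {p q : ℕ} → Term V p q → (Fin p → Finset V) → (Fin q → Finset V)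
  | _, _, .e, c => c
  | _, _, .nu S _, _ => fun _ => S
  | _, _, .kappa, _ => Fin.elim0
  | _, _, .phi, c => fun _ => c 0 ∪ c 1
  | _, _, .B, c => c
  | _, _, .K, c => c
  | _, _, .comp s σ t, c => t.out (fun i => s.out c (σ i))
  | _, _, .par s t, c => Fin.append (s.out (fun i => c (Fin.castAdd _ i)))
      (t.out (fun i => c (Fin.natAdd _ i)))

/-- `t.Adds c x y`: given the input cables `c`, some letter `B` or `K` of `t` adds the edge `xy`. -/
def Term.Adds {V : Type} [DecidableEq V] :
    {p q : ℕ} → Term V p q → (Fin p → Finset V) → V → V → Prop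
  | _, _, .e, _, _, _ => False
  | _, _, .nu _ _, _, _, _ => False
  | _, _, .kappa, _, _, _ => False
  | _, _, .phi, _, _, _ => False
  | _, _, .B, c, x, y => (x ∈ c 0 ∧ y ∈ c 1) ∨ (x ∈ c 1 ∧ y ∈ c 0)
  | _, _, .K, c, x, y => x ∈ c 0 ∧ y ∈ c 0 ∧ x ≠ y
  | _, _, .comp s σ t, c, x, y => s.Adds c x y ∨ t.Adds (fun i => s.out c (σ i)) x y
  | _, _, .par s t, c, x, y => s.Adds (fun i => c (Fin.castAdd _ i)) x y ∨
      t.Adds (fun i => c (Fin.natAdd _ i)) x y

/-- The multiset of all created vertices. -/
def Term.created {V : Type} : {p q : ℕ} → Term V p q → Multiset V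
  | _, _, .e => 0
  | _, _, .nu S _ => S.val
  | _, _, .kappa => 0
  | _, _, .phi => 0
  | _, _, .B => 0
  | _, _, .K => 0
  | _, _, .comp s _ t => s.created + t.created
  | _, _, .par s t => s.created + t.created

/-- The maximum of the cable ranks `p + q` over all subterm occurrences of type `p → q`. -/
def Term.width {V : Type} : {p q : ℕ} → Term V p q → ℕ
  | _, _, .e => 2
  | _, _, .nu _ _ => 1
  | _, _, .kappa => 1
  | _, _, .phi => 3
  | _, _, .B => 4
  | _, _, .K => 2
  | _, _, @Term.comp _ p _ r s _ t => max (p + r) (max s.width t.width)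
  | _, _, @Term.par _ p q p' q' s t => max ((p + p') + (q + q')) (max s.width t.width)

/-- A closed term is legal for `G`: every vertex is created exactly once, and the added edges are
exactly the edges of `G`. -/
def Term.Legal {V : Type} [Fintype V] [DecidableEq V] (t : Term V 0 0) (G : SimpleGraph V) : Prop :=
  t.created = Finset.univ.val ∧ ∀ x y : V, t.Adds Fin.elim0 x y ↔ G.Adj x y

/-- Split-free cable term width. -/
noncomputable def sfw {V : Type} [Fintype V] [DecidableEq V] (G : SimpleGraph V) : ℕ :=
  sInf {w | ∃ t : Term V 0 0, t.Legal G ∧ t.width = w}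

end Pool.Agent.CableTerm
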