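import Pool.Agent.CableTerm.Defs

set_option autoImplicit false

namespace Pool.Agent.CableTerm

open Term

/-- Adjacency lists of the counterexample. -/
def nbrs : Fin 13 → List (Fin 13)
  | 0 => [1, 3, 5, 6]
  | 1 => [0, 2, 5, 7]
  | 2 => [1, 3, 9, 10]
  | 3 => [0, 2, 9, 10]
  | 4 => [5, 6, 9, 11, 12]
  | 5 => [0, 1, 4, 7, 8, 9, 11]
  | 6 => [0, 4, 9, 11, 12]
  | 7 => [1, 5, 8]
  | 8 => [5, 7, 9, 11]
  | 9 => [2, 3, 4, 5, 6, 8, 10]
  | 10 => [2, 3, 9, 12]
  | 11 => [4, 5, 6, 8]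
  | 12 => [4, 6, 10]

/-- The counterexample graph on 13 vertices. -/
def exG : SimpleGraph (Fin 13) where
  Adj x y := y ∈ nbrs x
  symm := ⟨by decide⟩
  loopless := ⟨by decide⟩

instance : DecidableRel exG.Adj := fun x y => inferInstanceAs (Decidable (y ∈ nbrs x))

/-- create one vertex -/
def n (i : Fin 13) : Term (Fin 13) 0 1 := .nu {i} (by simp)

abbrev T := Term (Fin 13)

def p3 (f g : Fin 3 → Fin 3) (h1 : ∀ i, g (f i) = i) (h2 : ∀ i, f (g i) = i) :
    Equiv.Perm (Fin 3) := ⟨f, g, h1, h2⟩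

def p4 (f g : Fin 4 → Fin 4) (h1 : ∀ i, g (f i) = i) (h2 : ∀ i, f (g i) = i) :
    Equiv.Perm (Fin 4) := ⟨f, g, h1, h2⟩

/-- the permutations used -/
def σ012 : Equiv.Perm (Fin 3) := Equiv.refl _
def σ210 : Equiv.Perm (Fin 3) := p3 ![2, 1, 0] ![2, 1, 0] (by decide) (by decide)
def σ201 : Equiv.Perm (Fin 3) := p3 ![2, 0, 1] ![1, 2, 0] (by decide) (by decide)
def σ120 : Equiv.Perm (Fin 3) := p3 ![1, 2, 0] ![2, 0, 1] (by decide) (by decide)
def σ021 : Equiv.Perm (Fin 3) := p3 ![0, 2, 1] ![0, 2, 1] (by decide) (by decide)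
def σ102 : Equiv.Perm (Fin 3) := p3 ![1, 0, 2] ![1, 0, 2] (by decide) (by decide)
def σ3120 : Equiv.Perm (Fin 4) := p4 ![3, 1, 2, 0] ![3, 1, 2, 0] (by decide) (by decide)
def σ1302 : Equiv.Perm (Fin 4) := p4 ![1, 3, 0, 2] ![2, 0, 3, 1] (by decide) (by decide)

/-- `B` beside one wire. -/
def Be : T 3 3 := (par B e : T (2 + 1) (2 + 1))
/-- two wires -/
def ee : T 2 2 := (par e e : T (1 + 1) (1 + 1))
/-- `(x, y) ↦ (x, y, d)` -/
def add2 (d : Fin 13) : T 2 3 := (par ee (n d) : T (2 + 0) (2 + 1))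

/-- new vertex `d` joined to both cables: `(x, y) ↦ (y, d, x)` -/
def J (d : Fin 13) : T 2 3 := comp (comp (add2 d) σ021 Be) σ210 Be

/-- new vertex `d` joined to both cables and merged into the second: `(x, y) ↦ (y ∪ d, x)` -/
def JM (d : Fin 13) : T 2 2 := comp (J d) σ012 (par phi e : T (2 + 1) (1 + 1))

/-- `JM` beside one wire -/
def JMe (d : Fin 13) : T 3 3 := (par (JM d) e : T (2 + 1) (2 + 1))

/-- region 1 : `0 → 3`, output `({2,3}, {0}, {1})` -/
def R1 : T 0 3 :=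
  comp (comp (comp (par (par (n 0) (n 1)) (n 2) : T (0 + 0 + 0) (1 + 1 + 1)) σ012 Be) σ210 Be)
    σ201 (JMe 3)

/-- region 2 : `1 → 2`, `{0} ↦ ({4,6}, {5})` -/
def R2 : T 1 2 :=
  comp (comp (comp (comp (par (par e (n 4)) (n 5) : T (1 + 0 + 0) (1 + 1 + 1)) σ120 Be) σ210 Be)
    σ021 (JMe 6)) σ012 (par (par e kappa) e : T (1 + 1 + 1) (1 + 0 + 1))

/-- region 3 : `2 → 1`, `({1}, {5}) ↦ {5,8}` -/
def R3 : T 2 1 :=
  comp (comp (comp (comp (comp (add2 7) σ012 Be) σ120 Be) σ210 Be) σ120 (JMe 8)) σ012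
    (par (par e kappa) kappa : T (1 + 1 + 1) (1 + 0 + 0))

/-- `{x} ↦ {10}` with 10 joined to `x` -/
def R10 : T 1 1 :=
  comp (comp (par e (n 10) : T (1 + 0) (1 + 1)) (Equiv.refl _) B) (Equiv.refl _)
    (par kappa e : T (1 + 1) (0 + 1))

/-- region 4 : `3 → 0` on `({5,8}, {2,3}, {4,6})` (first permuted) -/
def R4 : T 3 0 :=
  comp (comp (comp (comp (comp (par (J 9) e : T (2 + 1) (3 + 1)) σ1302
    (par (comp B (Equiv.refl _) phi) ee : T (2 + 2) (1 + 2))) σ012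
    (par R10 ee : T (1 + 2) (1 + 2))) σ210 (JMe 11)) σ210 (JMe 12)) σ012
    (par (par kappa kappa) kappa : T (1 + 1 + 1) (0 + 0 + 0))

/-- the closed term -/
def exT : T 0 0 :=
  comp (comp R1 σ102 (par R2 ee : T (1 + 2) (2 + 2))) σ3120
    (comp (par R3 ee : T (2 + 2) (1 + 2)) σ201 R4)

theorem exT_width : exT.width = 7 := by decide +kernel

theorem exT_created : exT.created = (Finset.univ : Finset (Fin 13)).val := by decide +kernel

/-- decidability of `Adds` -/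
def decAdds {V : Type} [DecidableEq V] : {p q : ℕ} → (t : Term V p q) → (c : Fin p → Finset V) →
    (x y : V) → Decidable (t.Adds c x y)
  | _, _, .e, _, _, _ => inferInstanceAs (Decidable False)
  | _, _, .nu _ _, _, _, _ => inferInstanceAs (Decidable False)
  | _, _, .kappa, _, _, _ => inferInstanceAs (Decidable False)
  | _, _, .phi, _, _, _ => inferInstanceAs (Decidable False)
  | _, _, .B, c, x, y => inferInstanceAs (Decidable ((x ∈ c 0 ∧ y ∈ c 1) ∨ (x ∈ c 1 ∧ y ∈ c 0)))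
  | _, _, .K, c, x, y => inferInstanceAs (Decidable (x ∈ c 0 ∧ y ∈ c 0 ∧ x ≠ y))
  | _, _, .comp s σ t, c, x, y =>
      have := decAdds s c x y
      have := decAdds t (fun i => s.out c (σ i)) x y
      inferInstanceAs (Decidable (s.Adds c x y ∨ t.Adds (fun i => s.out c (σ i)) x y))
  | _, _, .par s t, c, x, y =>
      have := decAdds s (fun i => c (Fin.castAdd _ i)) x y
      have := decAdds t (fun i => c (Fin.natAdd _ i)) x y
      inferInstanceAs (Decidable (s.Adds (fun i => c (Fin.castAdd _ i)) x y ∨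
        t.Adds (fun i => c (Fin.natAdd _ i)) x y))

instance {V : Type} [DecidableEq V] {p q : ℕ} (t : Term V p q) (c : Fin p → Finset V) (x y : V) :
    Decidable (t.Adds c x y) := decAdds t c x y

theorem exT_adds : ∀ x y : Fin 13, exT.Adds Fin.elim0 x y ↔ exG.Adj x y := by decide +kernel

theorem exT_legal : exT.Legal exG := ⟨exT_created, exT_adds⟩

theorem sfw_le : sfw exG ≤ 7 := Nat.sInf_le ⟨exT, exT_legal, exT_width⟩

end Pool.Agent.CableTerm
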