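import Pool.Agent.CableTerm.Check

set_option autoImplicit false

namespace Pool.Agent.CableTerm

/-- four independent rows give cutrank at least four -/
lemma four_le_cutRank {V : Type} [Fintype V] (G : SimpleGraph V) (X : Finset V)
    (r : Fin 4 → V) (hr : ∀ k, r k ∈ X) (e : Fin 4 → V → ZMod 2)
    (he1 : ∀ k y, G.Adj (r k) y → e k y = 1) (he0 : ∀ k y, ¬ G.Adj (r k) y → e k y = 0)
    (h : ∀ g : Fin 4 → ZMod 2, g ≠ 0 → ∃ y, y ∉ X ∧ ∑ k, g k * e k y ≠ 0) :
    4 ≤ cutRank G X := by
  classical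
  unfold cutRank
  set M : Matrix {x // x ∈ X} {y // y ∉ X} (ZMod 2) :=
    Matrix.of fun x y => if G.Adj x.1 y.1 then (1 : ZMod 2) else 0 with hM
  have hli : LinearIndependent (ZMod 2) (M.submatrix (fun k : Fin 4 => (⟨r k, hr k⟩ : {x // x ∈ X})) id).row := by
    rw [Fintype.linearIndependent_iff]
    intro g hg
    by_contra hne
    push Not at hne
    obtain ⟨i, hi⟩ := hne
    have hg0 : g ≠ 0 := fun h => hi (by rw [h]; rfl)
    obtain ⟨y, hy, hsum⟩ := h g hg0
    apply hsum
    have := congrFun hg ⟨y, hy⟩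
    simp only [Finset.sum_apply, Pi.smul_apply, Matrix.row, Matrix.submatrix_apply, id, smul_eq_mul,
      Pi.zero_apply, hM, Matrix.of_apply] at this
    rw [← this]
    apply Finset.sum_congr rfl
    intro k _
    by_cases hk : G.Adj (r k) y
    · rw [he1 k y hk, if_pos hk]
    · rw [he0 k y hk, if_neg hk]
  have h1 := hli.rank_matrix
  rw [Fintype.card_fin] at h1
  have h2 := Matrix.rank_submatrix_le M (fun k : Fin 4 => (⟨r k, hr k⟩ : {x // x ∈ X})) id
  convert h1 ▸ h2

/-- the mask combination -/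
def cmb (g : Fin 4 → ZMod 2) (x y z w : ℕ) : ℕ :=
  (if g 0 = 1 then x else 0) ^^^ (if g 1 = 1 then y else 0) ^^^ (if g 2 = 1 then z else 0) ^^^
    (if g 3 = 1 then w else 0)

lemma zmod2_cases (a : ZMod 2) : a = 0 ∨ a = 1 := by
  revert a; decide

lemma cmb_ne (g : Fin 4 → ZMod 2) (hg : g ≠ 0) (x y z w : ℕ) (h : nz x y z w = true) :
    cmb g x y z w ≠ 0 := by
  simp only [nz, Bool.and_eq_true, bne_iff_ne, ne_eq] at h
  obtain ⟨⟨⟨⟨⟨⟨⟨⟨⟨⟨⟨⟨⟨⟨h1, h2⟩, h3⟩, h4⟩, h5⟩, h6⟩, h7⟩, h8⟩, h9⟩, h10⟩, h11⟩, h12⟩, h13⟩, h14⟩, h15⟩ := h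
  unfold cmb
  rcases zmod2_cases (g 0) with a | a <;> rcases zmod2_cases (g 1) with b | b <;>
    rcases zmod2_cases (g 2) with c | c <;> rcases zmod2_cases (g 3) with d | d <;>
    simp only [a, b, c, d, if_true, zero_ne_one, if_false, Nat.xor_zero, Nat.zero_xor] <;>
    first
    | assumption
    | (exfalso; apply hg; funext i; fin_cases i <;> assumption)

lemma bit_xor (a b i : ℕ) : ((a ^^^ b).testBit i).toNat % 2 = ((a.testBit i).toNat + (b.testBit i).toNat) % 2 := by
  rw [Nat.testBit_xor]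
  cases a.testBit i <;> cases b.testBit i <;> rfl

/-- value of a bit in `ZMod 2` -/
def bv (a i : ℕ) : ZMod 2 := if a.testBit i then 1 else 0

lemma bv_xor (a b i : ℕ) : bv (a ^^^ b) i = bv a i + bv b i := by
  unfold bv
  rw [Nat.testBit_xor]
  cases a.testBit i <;> cases b.testBit i <;> decide

lemma bv_ite (p : Prop) [Decidable p] (a i : ℕ) : bv (if p then a else 0) i = if p then bv a i else 0 := by
  split_ifs <;> simp [bv]

lemma bv_and (a b i : ℕ) (hb : b.testBit i = true) : bv (a &&& b) i = bv a i := by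
  unfold bv
  rw [Nat.testBit_and, hb, Bool.and_true]

lemma bv_cmb (g : Fin 4 → ZMod 2) (x y z w i : ℕ) :
    bv (cmb g x y z w) i = g 0 * bv x i + g 1 * bv y i + g 2 * bv z i + g 3 * bv w i := by
  unfold cmb
  rw [bv_xor, bv_xor, bv_xor, bv_ite, bv_ite, bv_ite, bv_ite]
  congr 1
  · congr 1
    · congr 1
      · rcases zmod2_cases (g 0) with h | h <;> simp [h]
      · rcases zmod2_cases (g 1) with h | h <;> simp [h]
    · rcases zmod2_cases (g 2) with h | h <;> simp [h]
  · rcases zmod2_cases (g 3) with h | h <;> simp [h]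

lemma adjm_bit : ∀ x y : Fin 13, (adjm x).testBit y = true ↔ exG.Adj x y := by decide +kernel

lemma pc_eq (m : ℕ) : pc m = (Finset.univ.filter (fun i : Fin 13 => m.testBit i = true)).card := by
  rw [Finset.card_filter]
  simp only [Fin.sum_univ_succ, Fin.sum_univ_zero]
  unfold pc
  have h : ∀ b : Bool, b.toNat = if b = true then 1 else 0 := by intro b; cases b <;> rfl
  simp only [h]
  simp only [Fin.val_zero, Fin.val_succ]
  ring_nf

lemma leaf_sound (X : Finset (Fin 13)) (I O a b c d : ℕ) (h : leafOK I O a b c d = true)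
    (ha : a < 13) (hb : b < 13) (hc : c < 13) (hd : d < 13)
    (hO13 : O < 2 ^ 13)
    (hI : ∀ i : Fin 13, I.testBit i = true → i ∈ X)
    (hO : ∀ i : Fin 13, O.testBit i = true → i ∉ X) : 4 ≤ cutRank exG X := by
  simp only [leafOK, Bool.and_eq_true] at h
  obtain ⟨⟨⟨⟨h1, h2⟩, h3⟩, h4⟩, h5⟩ := h
  apply four_le_cutRank exG X ![⟨a, ha⟩, ⟨b, hb⟩, ⟨c, hc⟩, ⟨d, hd⟩] ?_
    (fun k y => bv (adjm ((![⟨a, ha⟩, ⟨b, hb⟩, ⟨c, hc⟩, ⟨d, hd⟩] : Fin 4 → Fin 13) k)) y)
  · intro k y hk
    unfold bv
    rw [if_pos ((adjm_bit _ _).2 hk)]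
  · intro k y hk
    unfold bv
    rw [if_neg (fun h => hk ((adjm_bit _ _).1 h))]
  · intro g hg
    have hne := cmb_ne g hg _ _ _ _ h5
    obtain ⟨i, hi⟩ := Nat.exists_testBit_of_ne_zero hne
    have hiO : O.testBit i = true := by
      by_contra hiO
      rw [Bool.not_eq_true] at hiO
      have hz : ∀ r : ℕ, bv (r &&& O) i = 0 := by
        intro r
        unfold bv
        rw [Nat.testBit_and, hiO, Bool.and_false]
        rfl
      have h6 := bv_cmb g (adjm a &&& O) (adjm b &&& O) (adjm c &&& O) (adjm d &&& O) i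
      rw [hz, hz, hz, hz] at h6
      simp only [mul_zero, add_zero] at h6
      rw [bv, hi] at h6
      simp at h6
    have hi13 : i < 13 := by
      by_contra h13
      push Not at h13
      have : O.testBit i = false := Nat.testBit_lt_two_pow (lt_of_lt_of_le hO13 (Nat.pow_le_pow_right (by norm_num) h13))
      rw [this] at hiO
      exact absurd hiO (by simp)
    refine ⟨⟨i, hi13⟩, hO ⟨i, hi13⟩ hiO, ?_⟩
    have h6 := bv_cmb g (adjm a &&& O) (adjm b &&& O) (adjm c &&& O) (adjm d &&& O) i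
    rw [bv_and _ _ _ hiO, bv_and _ _ _ hiO, bv_and _ _ _ hiO, bv_and _ _ _ hiO] at h6
    have h7 : bv (cmb g (adjm a &&& O) (adjm b &&& O) (adjm c &&& O) (adjm d &&& O)) i = 1 := by
      rw [bv, hi]; rfl
    rw [Fin.sum_univ_four]
    show g 0 * bv (adjm a) i + g 1 * bv (adjm b) i + g 2 * bv (adjm c) i + g 3 * bv (adjm d) i ≠ 0
    rw [← h6, h7]
    exact one_ne_zero
  · intro k
    fin_cases k
    · exact hI _ h1
    · exact hI _ h2
    · exact hI _ h3
    · exact hI _ h4

/-- all leaf labels are below 13 -/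
def Tr.ok : Tr → Bool
  | .Z => true
  | .L a b c d => Nat.blt a 13 && Nat.blt b 13 && Nat.blt c 13 && Nat.blt d 13
  | .N l r => l.ok && r.ok

theorem cert_ok : cert.ok = true := by decide +kernel

lemma chk_sound (X : Finset (Fin 13)) (hX5 : 5 ≤ X.card) (hX8 : X.card ≤ 8) :
    ∀ (t : Tr) (vs : List ℕ) (I O : ℕ), chk vs I O t = true → t.ok = true →
      (∀ v ∈ vs, v < 13) → O < 2 ^ 13 →
      (∀ i : Fin 13, I.testBit i = true → i ∈ X) →
      (∀ i : Fin 13, O.testBit i = true → i ∉ X) → 4 ≤ cutRank exG X := by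
  intro t
  induction t with
  | Z =>
    intro vs I O h _ _ _ hI hO
    exfalso
    have h1 : pc I ≤ 8 := by
      rw [pc_eq]
      refine le_trans (Finset.card_le_card ?_) hX8
      intro i hi
      rw [Finset.mem_filter] at hi
      exact hI i hi.2
    have h2 : pc O ≤ 8 := by
      rw [pc_eq]
      have h3 : (Finset.univ.filter (fun i : Fin 13 => O.testBit i = true)).card ≤ Xᶜ.card := by
        apply Finset.card_le_card
        intro i hi
        rw [Finset.mem_filter] at hi
        rw [Finset.mem_compl]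
        exact hO i hi.2
      rw [Finset.card_compl, Fintype.card_fin] at h3
      omega
    have h3 : (Nat.blt 8 (pc I) || Nat.blt 8 (pc O)) = true := by
      cases vs <;> exact h
    rw [Bool.or_eq_true] at h3
    rcases h3 with h3 | h3
    · rw [Nat.blt_eq] at h3; omega
    · rw [Nat.blt_eq] at h3; omega
  | L a b c d =>
    intro vs I O h hok _ hO13 hI hO
    have h3 : leafOK I O a b c d = true := by
      cases vs <;> exact h
    simp only [Tr.ok, Bool.and_eq_true, Nat.blt_eq] at hok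
    exact leaf_sound X I O a b c d h3 hok.1.1.1 hok.1.1.2 hok.1.2 hok.2 hO13 hI hO
  | N l r ihl ihr =>
    intro vs I O h hok hvs hO13 hI hO
    cases vs with
    | nil => exact absurd h (by simp [chk])
    | cons v vs =>
      simp only [chk, Bool.and_eq_true] at h
      simp only [Tr.ok, Bool.and_eq_true] at hok
      have hv : v < 13 := hvs v (List.mem_cons_self)
      have hvs' : ∀ u ∈ vs, u < 13 := fun u hu => hvs u (List.mem_cons_of_mem _ hu)
      have hbit : ∀ (m : ℕ) (i : Fin 13), (m ||| 2 ^ v).testBit i = true →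
          m.testBit i = true ∨ i = ⟨v, hv⟩ := by
        intro m i hi
        rw [Nat.testBit_or, Bool.or_eq_true] at hi
        rcases hi with hi | hi
        · exact Or.inl hi
        · right
          rw [Nat.testBit_two_pow] at hi
          apply Fin.ext
          exact (of_decide_eq_true hi).symm
      by_cases hvX : (⟨v, hv⟩ : Fin 13) ∈ X
      · refine ihl vs _ _ h.1 hok.1 hvs' hO13 ?_ hO
        intro i hi
        rcases hbit I i hi with h1 | h1
        · exact hI i h1
        · rw [h1]; exact hvX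
      · refine ihr vs _ _ h.2 hok.2 hvs' ?_ hI ?_
        · exact Nat.or_lt_two_pow hO13 (Nat.pow_lt_pow_right (by norm_num) hv)
        · intro i hi
          rcases hbit O i hi with h1 | h1
          · exact hO i h1
          · rw [h1]; exact hvX

/-- Every balanced cut of `exG` has cutrank at least four. -/
theorem balanced_cut (X : Finset (Fin 13)) (hX5 : 5 ≤ X.card) (hX8 : X.card ≤ 8) :
    4 ≤ cutRank exG X := by
  refine chk_sound X hX5 hX8 cert _ 0 0 chk_cert cert_ok ?_ (by norm_num) ?_ ?_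
  · decide
  · intro i hi; simp at hi
  · intro i hi; simp at hi

end Pool.Agent.CableTerm
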