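import Pool.Agent.CableTerm.Sound

set_option autoImplicit false

namespace Pool.Agent.CableTerm

open SimpleGraph

section general

variable {V : Type} [Fintype V] (D : RankDecomposition V)

lemma reach_of_not_mem_support {N : ℕ} {T : SimpleGraph (Fin N)} {a ℓ t : Fin N}
    (q : T.Walk a ℓ) (h : t ∉ q.support) (b : Fin N) :
    (T.deleteEdges {s(t, b)}).Reachable a ℓ := by
  refine ⟨q.toDeleteEdges {s(t, b)} ?_⟩
  intro e he hmem
  rw [Set.mem_singleton_iff] at hmem
  rw [hmem] at he
  exact h (q.fst_mem_support_of_mem_edges he)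

lemma side_cover_at (t : Fin D.N) (v : V) (hv : (D.leaf v).1 ≠ t) :
    ∃ a, D.T.Adj t a ∧ v ∈ D.side a t := by
  classical
  obtain ⟨p, hp⟩ := (D.isTree.connected.preconnected t (D.leaf v).1).exists_isPath
  cases p with
  | nil => exact absurd rfl hv
  | @cons _ a _ h q =>
    rw [Walk.cons_isPath_iff] at hp
    refine ⟨a, h, ?_⟩
    unfold RankDecomposition.side
    rw [Finset.mem_filter]
    refine ⟨Finset.mem_univ _, ?_⟩
    have := reach_of_not_mem_support q hp.2 a
    rw [Sym2.eq_swap]
    exact this

lemma side_cover (a b : Fin D.N) (v : V) : v ∈ D.side a b ∨ v ∈ D.side b a := by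
  classical
  obtain ⟨p, hp⟩ := (D.isTree.connected.preconnected a (D.leaf v).1).exists_isPath
  unfold RankDecomposition.side
  rw [Finset.mem_filter, Finset.mem_filter]
  generalize (D.leaf v).1 = ℓ at *
  cases p with
  | nil => left; exact ⟨Finset.mem_univ _, Reachable.refl _⟩
  | @cons _ c _ h q =>
    rw [Walk.cons_isPath_iff] at hp
    by_cases hcb : c = b
    · right
      subst hcb
      refine ⟨Finset.mem_univ _, ?_⟩
      rw [Sym2.eq_swap]
      exact reach_of_not_mem_support q hp.2 c
    · left
      refine ⟨Finset.mem_univ _, ?_⟩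
      refine Reachable.trans ?_ (reach_of_not_mem_support q hp.2 b)
      apply Adj.reachable
      rw [deleteEdges_adj]
      refine ⟨h, ?_⟩
      rw [Set.mem_singleton_iff]
      intro h2
      rw [Sym2.eq_iff] at h2
      rcases h2 with h2 | h2
      · exact hcb h2.2
      · exact h.ne h2.2.symm

lemma side_disjoint (a b : Fin D.N) (hab : D.T.Adj a b) : Disjoint (D.side a b) (D.side b a) := by
  classical
  rw [Finset.disjoint_left]
  intro v h1 h2
  unfold RankDecomposition.side at h1 h2
  rw [Finset.mem_filter] at h1 h2
  have h3 := h2.2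
  rw [Sym2.eq_swap] at h3
  have h4 := h1.2.trans h3.symm
  have h5 := (isAcyclic_iff_forall_adj_isBridge.1 D.isTree.isAcyclic) hab
  rw [isBridge_iff] at h5
  exact h5 h4

lemma side_card (a b : Fin D.N) (hab : D.T.Adj a b) :
    (D.side a b).card + (D.side b a).card = Fintype.card V := by
  classical
  rw [← Finset.card_union_of_disjoint (side_disjoint D a b hab)]
  rw [Finset.card_eq_iff_eq_univ]
  ext v
  simp only [Finset.mem_union, Finset.mem_univ, iff_true]
  exact side_cover D a b v

/-- Every rank-decomposition has a balanced edge. -/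
theorem exists_balanced (hV : 2 ≤ Fintype.card V) : ∃ a b : Fin D.N, D.T.Adj a b ∧
    Fintype.card V ≤ 3 * (D.side a b).card ∧ Fintype.card V ≤ 3 * (D.side b a).card := by
  classical
  by_contra hcon
  push Not at hcon
  -- a node all of whose neighbours are on small sides
  have hsink : ∃ t, ∀ a, D.T.Adj a t → 3 * (D.side a t).card < Fintype.card V := by
    by_contra hns
    push Not at hns
    choose f hf1 hf2 using hns
    have hinj : Function.Injective (fun t => (⟨s(f t, t), hf1 t⟩ : D.T.edgeSet)) := by
      intro t t' htt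
      have htt' : s(f t, t) = s(f t', t') := congrArg Subtype.val htt
      rw [Sym2.eq_iff] at htt'
      rcases htt' with h | h
      · exact h.2
      · exfalso
        have h1 := hcon (f t) t (hf1 t) (hf2 t)
        have h2 := hf2 t'
        rw [← h.2, ← h.1] at h2
        omega
    have h1 : Nat.card (Fin D.N) ≤ Nat.card D.T.edgeSet := Nat.card_le_card_of_injective _ hinj
    have h2 := (isTree_iff_connected_and_card.1 D.isTree).2
    omega
  obtain ⟨t, ht⟩ := hsink
  have hdeg : (D.T.neighborFinset t).card ≤ 3 := by
    have := D.subcubic t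
    rw [Set.ncard_eq_toFinset_card'] at this
    exact this
  by_cases hleaf : ∃ v, (D.leaf v).1 = t
  · obtain ⟨v0, hv0⟩ := hleaf
    have hdeg1 : (D.T.neighborFinset t).card = 1 := by
      have := (D.leaf v0).2
      rw [hv0, Set.ncard_eq_toFinset_card'] at this
      exact this
    have hcov : (Finset.univ : Finset V) ⊆ insert v0 ((D.T.neighborFinset t).biUnion (fun a => D.side a t)) := by
      intro v _
      by_cases hv : (D.leaf v).1 = t
      · rw [Finset.mem_insert]
        left
        apply D.leaf.injective
        apply Subtype.ext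
        rw [hv, hv0]
      · obtain ⟨a, ha, hva⟩ := side_cover_at D t v hv
        rw [Finset.mem_insert]
        right
        rw [Finset.mem_biUnion]
        exact ⟨a, by simpa using ha, hva⟩
    have h1 := Finset.card_le_card hcov
    have h2 := (Finset.card_insert_le v0 ((D.T.neighborFinset t).biUnion (fun a => D.side a t)))
    have h3 : ((D.T.neighborFinset t).biUnion (fun a => D.side a t)).card ≤
        (D.T.neighborFinset t).card * ((Fintype.card V - 1) / 3) := by
      apply Finset.card_biUnion_le_card_mul
      intro a ha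
      have := ht a (by rw [mem_neighborFinset] at ha; exact ha.symm)
      omega
    rw [hdeg1] at h3
    rw [Finset.card_univ] at h1
    omega
  · push Not at hleaf
    have hcov : (Finset.univ : Finset V) ⊆ ((D.T.neighborFinset t).biUnion (fun a => D.side a t)) := by
      intro v _
      obtain ⟨a, ha, hva⟩ := side_cover_at D t v (hleaf v)
      rw [Finset.mem_biUnion]
      exact ⟨a, by simpa using ha, hva⟩
    have h1 := Finset.card_le_card hcov
    have h3 : ((D.T.neighborFinset t).biUnion (fun a => D.side a t)).card ≤
        (D.T.neighborFinset t).card * ((Fintype.card V - 1) / 3) := by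
      apply Finset.card_biUnion_le_card_mul
      intro a ha
      have := ht a (by rw [mem_neighborFinset] at ha; exact ha.symm)
      omega
    have h4 : (D.T.neighborFinset t).card * ((Fintype.card V - 1) / 3) ≤ 3 * ((Fintype.card V - 1) / 3) :=
      Nat.mul_le_mul_right _ hdeg
    rw [Finset.card_univ] at h1
    omega

end general

/-- Every rank-decomposition of `exG` has width at least four. -/
theorem width_ge (D : RankDecomposition (Fin 13)) (k : ℕ) (h : D.WidthLE exG k) : 4 ≤ k := by
  obtain ⟨a, b, hab, h1, h2⟩ := exists_balanced D (by simp)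
  have h3 := side_card D a b hab
  rw [Fintype.card_fin] at h1 h2 h3
  exact (balanced_cut (D.side a b) (by omega) (by omega)).trans (h a b hab)

/-! ### Existence of a rank-decomposition of a 13-element set (a caterpillar) -/

/-- parent function of the caterpillar -/
def par13 : Fin 24 → Fin 24 :=
  ![0, 0, 1, 2, 3, 4, 5, 6, 7, 8, 9, 0, 0, 1, 2, 3, 4, 5, 6, 7, 8, 9, 10, 10]

/-- the caterpillar -/
def cat : SimpleGraph (Fin 24) where
  Adj x y := x ≠ y ∧ (par13 x = y ∨ par13 y = x)
  symm := ⟨by
    intro x y h
    exact ⟨h.1.symm, h.2.symm⟩⟩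
  loopless := ⟨fun x h => h.1 rfl⟩

instance : DecidableRel cat.Adj := fun x y => inferInstanceAs (Decidable (x ≠ y ∧ (par13 x = y ∨ par13 y = x)))

lemma par_lt : ∀ x : Fin 24, x ≠ 0 → (par13 x).val < x.val := by decide

lemma cat_reach (k : ℕ) : ∀ x : Fin 24, x.val = k → cat.Reachable 0 x := by
  induction k using Nat.strong_induction_on with
  | _ k ih =>
    intro x hx
    by_cases h0 : x = 0
    · rw [h0]
    · have h1 := par_lt x h0
      have h2 := ih _ (by omega) (par13 x) rfl
      refine h2.trans (Adj.reachable ?_)
      exact ⟨fun h => by rw [h] at h1; omega, Or.inr rfl⟩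

lemma cat_tree : cat.IsTree := by
  rw [isTree_iff_connected_and_card]
  refine ⟨?_, ?_⟩
  · have : Nonempty (Fin 24) := ⟨0⟩
    refine ⟨fun x y => ?_⟩
    exact (cat_reach _ x rfl).symm.trans (cat_reach _ y rfl)
  · rw [Nat.card_eq_fintype_card, Nat.card_eq_fintype_card, ← edgeFinset_card]
    decide +kernel

lemma cat_deg (w : Fin 24) : (cat.neighborSet w).ncard = (Finset.univ.filter (fun y => cat.Adj w y)).card := by
  rw [Set.ncard_eq_toFinset_card']
  congr 1
  ext y
  simp

lemma cat_deg_le : ∀ w : Fin 24, (Finset.univ.filter (fun y => cat.Adj w y)).card ≤ 3 := by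
  decide +kernel

lemma cat_leaf : ∀ i : Fin 13, (Finset.univ.filter (fun y => cat.Adj (Fin.natAdd 11 i) y)).card = 1 := by
  decide +kernel

lemma cat_leaf' : ∀ w : Fin 24, (Finset.univ.filter (fun y => cat.Adj w y)).card = 1 →
    ∃ i : Fin 13, Fin.natAdd 11 i = w := by
  decide +kernel

/-- the caterpillar decomposition -/
noncomputable def catD : RankDecomposition (Fin 13) where
  N := 24
  T := cat
  isTree := cat_tree
  subcubic := fun w => by rw [cat_deg]; exact cat_deg_le w
  leaf := Equiv.ofBijective (fun i : Fin 13 => (⟨Fin.natAdd 11 i, by rw [cat_deg]; exact cat_leaf i⟩ :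
      {w : Fin 24 // (cat.neighborSet w).ncard = 1})) (by
    constructor
    · intro i j hij
      simp only [Subtype.mk.injEq] at hij
      exact Fin.ext (by have := congrArg Fin.val hij; simpa using this)
    · rintro ⟨w, hw⟩
      rw [cat_deg] at hw
      obtain ⟨i, hi⟩ := cat_leaf' w hw
      exact ⟨i, Subtype.ext hi⟩)

theorem four_le_rankWidth : 4 ≤ rankWidth exG := by
  unfold rankWidth
  rw [if_neg (by simp)]
  have hne : {k | ∃ D : RankDecomposition (Fin 13), D.WidthLE exG k}.Nonempty := by
    classical
    refine ⟨(Finset.univ : Finset (Finset (Fin 13))).sup (fun X => cutRank exG X), catD, ?_⟩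
    intro a b _
    exact Finset.le_sup (f := fun X => cutRank exG X) (Finset.mem_univ _)
  obtain ⟨D, hD⟩ := Nat.sInf_mem hne
  exact width_ge D _ hD

end Pool.Agent.CableTerm
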